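import Pool.Agent.Helper85.QT.St2

/-!
# Project QT, module FDC: the flat distance
-/

set_option autoImplicit false

open MeasureTheory Matrix Set Topology
open scoped ENNReal ComplexConjugate

namespace Pool.Agent.Helper94.QT

open Pool.Agent.Helper85.QT Pool.Agent.Helper86.QA

/-- the principal logarithm has minimal modulus -/
private lemma norm_log_le (z u : ℂ) (h : Complex.exp z = u) : ‖Complex.log u‖ ≤ ‖z‖ := by
  have h1 : Complex.exp (Complex.log u) = Complex.exp z := by
    rw [Complex.exp_log (by rw [← h]; exact Complex.exp_ne_zero z), h]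
  obtain ⟨n, hn⟩ := Complex.exp_eq_exp_iff_exists_int.1 h1
  have hre : (Complex.log u).re = z.re := by
    rw [hn]
    simp
  have him : (Complex.log u).im = z.im + n * (2 * Real.pi) := by
    rw [hn]
    simp
  have hlo := Complex.neg_pi_lt_log_im u
  have hup := Complex.log_im_le_pi u
  have hpi := Real.pi_pos
  have habs : |(Complex.log u).im| ≤ |z.im| := by
    rcases lt_trichotomy n 0 with h0 | h0 | h0
    · have h2 : (n : ℝ) ≤ -1 := by
        have : n ≤ -1 := by omega
        exact_mod_cast this
      have h3 : Real.pi ≤ z.im := by nlinarith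
      rw [abs_of_nonneg (hpi.le.trans h3)]
      exact (abs_le.2 ⟨hlo.le, hup⟩).trans h3
    · rw [him, h0]
      simp
    · have h2 : (1 : ℝ) ≤ n := by
        have : 1 ≤ n := by omega
        exact_mod_cast this
      have h3 : z.im ≤ -Real.pi := by nlinarith
      rw [abs_of_nonpos (by linarith : z.im ≤ 0)]
      have h4 : |(Complex.log u).im| ≤ Real.pi := abs_le.2 ⟨hlo.le, hup⟩
      linarith
  rw [Complex.norm_def, Complex.norm_def]
  apply Real.sqrt_le_sqrt
  rw [Complex.normSq_apply, Complex.normSq_apply, hre]
  have := mul_self_le_mul_self (abs_nonneg _) habs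
  rw [abs_mul_abs_self, abs_mul_abs_self] at this
  linarith

private lemma norm_log_inv (x : ℂ) : ‖Complex.log x⁻¹‖ = ‖Complex.log x‖ := by
  rw [Complex.log_inv_eq_ite]
  split_ifs
  · rw [norm_neg, RCLike.norm_conj]
  · rw [norm_neg]

theorem hFDC : Pool.Agent.Helper85.QT.StFDC := by
  intro lam hlam
  have hl : 0 < ‖lam‖ := norm_pos_iff.2 hlam
  refine ⟨?_, ?_, ?_, ?_, ?_⟩
  · intro ξ η
    refine ⟨?_, ?_, ?_⟩
    · unfold fd
      rw [← inv_div η ξ, norm_log_inv]
    · unfold fd
      positivity
    · unfold fd
      by_cases h : ξ = 0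
      · rw [h]
        simp
      · rw [div_self h]
        simp
  · intro ξ η ζ h1 h2 h3
    unfold fd
    rw [← add_div]
    apply div_le_div_of_nonneg_right _ hl.le
    refine (norm_log_le (Complex.log (ξ / η) + Complex.log (η / ζ)) _ ?_).trans (norm_add_le _ _)
    rw [Complex.exp_add, Complex.exp_log (div_ne_zero h1 h2), Complex.exp_log (div_ne_zero h2 h3)]
    field_simp
  · intro w w'
    have e1 : Complex.exp (lam * w) / Complex.exp (lam * w') = Complex.exp (lam * (w - w')) := by
      rw [← Complex.exp_sub]
      congr 1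
      ring
    have e2 : ∀ k : ℤ, lam * (w - w' + k * (2 * Real.pi * Complex.I / lam)) =
        lam * (w - w') + k * (2 * Real.pi * Complex.I) := by
      intro k
      field_simp
    constructor
    · intro k
      unfold fd
      rw [div_le_iff₀ hl, mul_comm (‖_‖) (‖lam‖), ← norm_mul]
      apply norm_log_le
      rw [e1, e2]
      exact Complex.exp_eq_exp_iff_exists_int.2 ⟨k, rfl⟩
    · have h1 : Complex.exp (Complex.log (Complex.exp (lam * (w - w')))) =
          Complex.exp (lam * (w - w')) := Complex.exp_log (Complex.exp_ne_zero _)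
      obtain ⟨k, hk⟩ := Complex.exp_eq_exp_iff_exists_int.1 h1
      refine ⟨k, ?_⟩
      unfold fd
      rw [div_eq_iff hl.ne', mul_comm (‖_‖) (‖lam‖), ← norm_mul, e2, e1, hk]
  · intro ξ η ε h1 h2 hε h
    unfold fd
    apply div_le_div_of_nonneg_right _ hl.le
    have h3 := Complex.norm_log_one_add_half_le_self (z := ξ / η - 1) (h.trans hε)
    rw [add_sub_cancel] at h3
    have h4 := norm_nonneg (ξ / η - 1)
    linarith
  · intro η
    unfold fd
    exact ((Complex.measurable_log.comp (measurable_id.div_const η)).norm).div_const _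

end Pool.Agent.Helper94.QT
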