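import Pool.Agent.Helper88.QT.St3
import Pool.Agent.Helper85.QT.St1
import Pool.Agent.Helper68.QCA.Main

/-!
# Project QT, module FVG: first variation and gradient of the length
-/

set_option autoImplicit false

open MeasureTheory Matrix Set Topology Filter
open scoped ENNReal ComplexConjugate

namespace Pool.Agent.Helper94.QT

open Pool.Agent.Helper68.QC (nq Bel InvB Intw InvL ann crd muT Mult SL)

section Tor

open Pool.Agent.Helper68.QC (den mob)

private theorem tor_det (L : ℂ →L[ℝ] ℂ) (c : ℂ) (h : ∀ z, L z = c * z) : L.det = ‖c‖ ^ 2 := by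
  have h1 : L.det = (LinearMap.toMatrix Complex.basisOneI Complex.basisOneI
      (L : ℂ →ₗ[ℝ] ℂ)).det := by
    rw [LinearMap.det_toMatrix]
  rw [h1, Matrix.det_fin_two]
  simp only [LinearMap.toMatrix_apply, Complex.coe_basisOneI_repr, Complex.coe_basisOneI,
    ContinuousLinearMap.coe_coe, h]
  rw [← Complex.normSq_eq_norm_sq, Complex.normSq_apply]
  simp

private theorem crd_ne_one {a b : ℂ} (hab : a ≠ b) (x : ℂ) : crd a b x ≠ 1 := by
  unfold crd
  intro h
  by_cases hx : x - b = 0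
  · rw [hx, div_zero] at h
    exact zero_ne_one h
  · rw [div_eq_one_iff_eq hx] at h
    apply hab
    linear_combination -h

private theorem crd_sub_one {a b x : ℂ} (hx : x ≠ b) :
    crd a b x - 1 = (b - a) / (x - b) := by
  have h1 : x - b ≠ 0 := sub_ne_zero.2 hx
  unfold crd
  field_simp
  ring

private theorem crd_inv {a b : ℂ} (hab : a ≠ b) {x : ℂ} (hx : x ≠ b) :
    (b * crd a b x - a) / (crd a b x - 1) = x := by
  have h1 : x - b ≠ 0 := sub_ne_zero.2 hx
  have h3 : b - a ≠ 0 := sub_ne_zero.2 hab.symm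
  have h4 : b * crd a b x - a = x * (b - a) / (x - b) := by
    unfold crd
    field_simp
    ring
  rw [crd_sub_one hx, h4]
  field_simp

private theorem crd_of_inv {a b : ℂ} (hab : a ≠ b) {η : ℂ} (hη : η ≠ 1) :
    (b * η - a) / (η - 1) ≠ b ∧ crd a b ((b * η - a) / (η - 1)) = η := by
  have h1 : η - 1 ≠ 0 := sub_ne_zero.2 hη
  have h3 : b - a ≠ 0 := sub_ne_zero.2 hab.symm
  have h2 : (b * η - a) / (η - 1) - b = (b - a) / (η - 1) := by
    field_simp
    ring
  have h4 : (b * η - a) / (η - 1) - a = (b - a) * η / (η - 1) := by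
    field_simp
    ring
  refine ⟨?_, ?_⟩
  · rw [← sub_ne_zero, h2]
    exact div_ne_zero h3 h1
  · unfold crd
    rw [h2, h4]
    field_simp

private theorem crd_diff {a b x : ℂ} (hx : x ≠ b) :
    HasDerivAt (crd a b) ((a - b) / (x - b) ^ 2) x := by
  have h1 : x - b ≠ 0 := sub_ne_zero.2 hx
  have h2 : HasDerivAt (fun y : ℂ => y - a) 1 x := (hasDerivAt_id x).sub_const a
  have h3 : HasDerivAt (fun y : ℂ => y - b) 1 x := (hasDerivAt_id x).sub_const b
  have h4 := h2.div h3 h1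
  refine h4.congr_deriv ?_
  field_simp
  ring

private theorem mob_sub (A : SL) {x y : ℂ} (hx : den A x ≠ 0) (hy : den A y ≠ 0) :
    mob A x - mob A y = (x - y) / (den A x * den A y) := by
  have hdet : A 0 0 * A 1 1 - A 0 1 * A 1 0 = 1 := by
    have := A.det_coe
    rwa [Matrix.det_fin_two] at this
  unfold mob
  rw [div_sub_div _ _ hx hy]
  congr 1
  unfold den
  linear_combination (x - y) * hdet

private theorem den_null (A : SL) : ∀ᵐ z : ℂ, den A z ≠ 0 := by
  have hdet : A 0 0 * A 1 1 - A 0 1 * A 1 0 = 1 := by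
    have := A.det_coe
    rwa [Matrix.det_fin_two] at this
  rw [ae_iff]
  apply Set.Subsingleton.measure_zero
  intro x hx y hy
  simp only [not_not] at hx hy
  have hx' : den A x = 0 := hx
  have hy' : den A y = 0 := hy
  unfold den at hx' hy'
  by_contra hxy
  have h1 : A 1 0 * (x - y) = 0 := by linear_combination hx' - hy'
  rcases mul_eq_zero.1 h1 with h | h
  · have h2 : A 1 1 = 0 := by
      rw [h, zero_mul, zero_add] at hx'
      exact hx'
    rw [h, h2] at hdet
    norm_num at hdet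
  · exact hxy (sub_eq_zero.1 h)

private theorem tor_alg (M m C X D β X' D' β' : ℂ) (hX' : X' ≠ 0) (hD' : D' ≠ 0) (hβ' : β' ≠ 0)
    (h : M * D ^ 2 = m * D' ^ 2) :
    M * (C * ((X * (D * β)) ^ 2 / (X' * (D' * β')) ^ 2)) * β' ^ 2 =
      m * (C * (X ^ 2 / X' ^ 2)) * β ^ 2 := by
  have e1 : M * (C * ((X * (D * β)) ^ 2 / (X' * (D' * β')) ^ 2)) * β' ^ 2 =
      (M * D ^ 2) * (C * X ^ 2 * β ^ 2 / (X' ^ 2 * D' ^ 2)) := by
    field_simp
  rw [e1, h]
  field_simp

private theorem tor_pull {a b : ℂ} (hab : a ≠ b) {P : ℂ → Prop} (hP : ∀ᵐ z : ℂ, P z) :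
    ∀ᵐ η : ℂ, η ≠ 1 → P ((b * η - a) / (η - 1)) := by
  rw [ae_iff] at hP ⊢
  have h1 : volume ({z : ℂ | ¬ P z} \ {b}) = 0 := measure_mono_null diff_subset hP
  have h2 : DifferentiableOn ℝ (crd a b) ({z : ℂ | ¬ P z} \ {b}) := by
    intro x hx
    have hxb : x ≠ b := fun h => hx.2 h
    exact ((crd_diff hxb).differentiableAt.restrictScalars ℝ).differentiableWithinAt
  refine measure_mono_null ?_
    (addHaar_image_eq_zero_of_differentiableOn_of_addHaar_eq_zero volume h2 h1)
  intro η hη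
  have hη' : ¬ (η ≠ 1 → P ((b * η - a) / (η - 1))) := hη
  rw [Classical.not_imp] at hη'
  obtain ⟨h3, h4⟩ := crd_of_inv hab hη'.1
  exact ⟨_, ⟨hη'.2, h3⟩, h4⟩

/-- the invariance in the new coordinate -/
private theorem tor_inv {μ : ℂ → ℂ} {A : SL} {a b l : ℂ} (hI : InvB A μ) (hM : Mult A a b l) :
    InvL l (muT a b μ) := by
  obtain ⟨hab, ha0, ha, hb0, hb, hm⟩ := hM
  have h1 := tor_pull hab (hI.and (den_null A))
  have h2 : ∀ᵐ η : ℂ, η ≠ 0 := by
    rw [ae_iff]
    simp
  have h3 : ∀ᵐ η : ℂ, η ≠ 1 := by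
    rw [ae_iff]
    simp
  filter_upwards [h1, h2, h3] with η g1 g2 g3
  obtain ⟨g4, g5⟩ := g1 g3
  obtain ⟨g6, g7⟩ := crd_of_inv hab g3
  set z := (b * η - a) / (η - 1) with hz
  have hz0 : z - b ≠ 0 := sub_ne_zero.2 g6
  have hba : b - a ≠ 0 := sub_ne_zero.2 hab.symm
  -- the image point
  have hmb : mob A z - b = (z - b) / (den A z * den A b) := by
    have := mob_sub A g5 hb0
    rwa [hb] at this
  have hma : mob A z - a = (z - a) / (den A z * den A a) := by
    have := mob_sub A g5 ha0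
    rwa [ha] at this
  have hmb0 : mob A z ≠ b := by
    rw [← sub_ne_zero, hmb]
    exact div_ne_zero hz0 (mul_ne_zero g5 hb0)
  have hab1 : den A a * den A b = 1 := by
    have h := mob_sub A ha0 hb0
    rw [ha, hb] at h
    have h' : a - b ≠ 0 := sub_ne_zero.2 hab
    have h'' := mul_ne_zero ha0 hb0
    rw [eq_div_iff h''] at h
    have := mul_left_cancel₀ h' (h.trans (mul_one _).symm)
    exact this
  have hT : crd a b (mob A z) = Complex.exp l * η := by
    rw [hm z g6 g5, g7]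
  have hT1 : Complex.exp l * η - 1 = (η - 1) * (den A z * den A b) := by
    rw [← hT, crd_sub_one hmb0, hmb, ← g7, crd_sub_one g6]
    field_simp
  have hE : Complex.exp l = den A b ^ 2 := by
    have h4 : crd a b (mob A z) = crd a b z * den A b ^ 2 := by
      unfold crd
      rw [hmb, hma]
      have h5 : den A a = (den A b)⁻¹ := eq_inv_of_mul_eq_one_left hab1
      rw [h5]
      field_simp
    rw [hT, g7, mul_comm] at h4
    exact mul_left_cancel₀ g2 h4
  have hS : (b * (Complex.exp l * η) - a) / (Complex.exp l * η - 1) = mob A z := by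
    rw [← hT]
    exact crd_inv hab hmb0
  have hX' : conj (η - 1) ≠ 0 := by
    rw [Ne, map_eq_zero]
    exact sub_ne_zero.2 g3
  have hD' : conj (den A z) ≠ 0 := by
    rw [Ne, map_eq_zero]
    exact g5
  have hβ' : conj (den A b) ≠ 0 := by
    rw [Ne, map_eq_zero]
    exact hb0
  unfold muT
  rw [hS, hT1, ← hz, hE, map_pow, map_mul, map_mul]
  exact tor_alg _ _ _ _ _ _ _ _ _ hX' hD' hβ' g4

private theorem crd_meas (a b : ℂ) : Measurable (crd a b) :=
  (measurable_id.sub_const a).div (measurable_id.sub_const b)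


end Tor

/-- change of variables for the quadratic differential -/
private theorem fvg_int {a b : ℂ} (hab : a ≠ b) (μ : ℂ → ℂ) (l : ℂ) :
    ∫ η in ann l, muT a b μ η / η ^ 2 =
      ∫ ξ in Pool.Agent.Helper85.QT.Fm a b l, μ ξ * Pool.Agent.Helper85.QT.th a b ξ := by
  set F : Set ℂ := Pool.Agent.Helper85.QT.Fm a b l with hF
  have hF' : F = {ξ : ℂ | 1 ≤ ‖crd a b ξ‖ ∧ ‖crd a b ξ‖ < Real.exp l.re} := rfl
  have hFm : MeasurableSet F := by
    rw [hF']
    exact (measurableSet_le measurable_const (crd_meas a b).norm).inter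
      (measurableSet_lt (crd_meas a b).norm measurable_const)
  have hFb : ∀ ξ ∈ F, ξ ≠ b := by
    rintro ξ ⟨h1, -⟩ rfl
    rw [sub_self, div_zero, norm_zero] at h1
    norm_num at h1
  have hFa : ∀ ξ ∈ F, ξ ≠ a := by
    rintro ξ ⟨h1, -⟩ rfl
    rw [sub_self, zero_div, norm_zero] at h1
    norm_num at h1
  have himg : crd a b '' F = ann l \ {1} := by
    ext η
    constructor
    · rintro ⟨ξ, hξ, rfl⟩
      exact ⟨hξ, crd_ne_one hab ξ⟩
    · rintro ⟨h1, h2⟩
      obtain ⟨h3, h4⟩ := crd_of_inv hab (show η ≠ 1 from h2)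
      refine ⟨_, ?_, h4⟩
      rw [hF', mem_setOf_eq, h4]
      exact h1
  have hinj : InjOn (crd a b) F := by
    intro x hx y hy hxy
    rw [← crd_inv hab (hFb x hx), ← crd_inv hab (hFb y hy), hxy]
  let f' : ℂ → ℂ →L[ℝ] ℂ := fun ξ =>
    (ContinuousLinearMap.smulRight (1 : ℂ →L[ℂ] ℂ) ((a - b) / (ξ - b) ^ 2)).restrictScalars ℝ
  have hf' : ∀ ξ ∈ F, HasFDerivWithinAt (crd a b) (f' ξ) F ξ := by
    intro ξ hξ
    exact ((crd_diff (hFb ξ hξ)).hasFDerivAt.restrictScalars ℝ).hasFDerivWithinAt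
  have hcv := integral_image_eq_integral_abs_det_fderiv_smul volume hFm hf' hinj
    (fun η => muT a b μ η / η ^ 2)
  have hset : ∫ η in ann l, muT a b μ η / η ^ 2 =
      ∫ η in crd a b '' F, muT a b μ η / η ^ 2 := by
    rw [himg]
    exact (setIntegral_congr_set (diff_null_ae_eq_self (by simp))).symm
  rw [hset, hcv]
  refine setIntegral_congr_fun hFm ?_
  intro ξ hξ
  have hb := hFb ξ hξ
  have ha := hFa ξ hξ
  have hdet : (f' ξ).det = ‖(a - b) / (ξ - b) ^ 2‖ ^ 2 := by
    apply tor_det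
    intro z
    simp [f', mul_comm]
  have h1 : ξ - a ≠ 0 := sub_ne_zero.2 ha
  have h2 : ξ - b ≠ 0 := sub_ne_zero.2 hb
  have h3 : a - b ≠ 0 := sub_ne_zero.2 hab
  have h2' : conj (ξ - b) ≠ 0 := by rwa [Ne, map_eq_zero]
  have h3' : conj (a - b) ≠ 0 := by rwa [Ne, map_eq_zero]
  have hn : ((‖(a - b) / (ξ - b) ^ 2‖ ^ 2 : ℝ) : ℂ) =
      (a - b) / (ξ - b) ^ 2 * (conj (a - b) / conj (ξ - b) ^ 2) := by
    rw [← Complex.normSq_eq_norm_sq, ← Complex.mul_conj, map_div₀, map_pow]
  have hc1 : crd a b ξ - 1 = -(a - b) / (ξ - b) := by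
    rw [crd_sub_one hb]
    congr 1
    ring
  have hmu : muT a b μ (crd a b ξ) =
      μ ξ * ((conj (a - b) / (a - b)) * ((-(a - b) / (ξ - b)) ^ 2 /
        (-(conj (a - b)) / conj (ξ - b)) ^ 2)) := by
    unfold muT
    rw [crd_inv hab hb, hc1, map_div₀, map_neg]
  simp only
  rw [hdet, abs_of_nonneg (by positivity), Complex.real_smul, hn, hmu]
  unfold crd Pool.Agent.Helper85.QT.th
  field_simp

/-- translation length in terms of the multiplier -/
private theorem fvg_tl (hHS2 : Pool.Agent.Helper35.PM.St_HS2) (B : SL) (a b l : ℂ)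
    (hM : Mult B a b l) (hl : 0 < l.re) : Pool.Agent.Helper35.PM.tl B = l.re := by
  have h1 := Pool.Agent.Helper68.QCA.MTR.1 B a b l hM
  have e1 : Complex.exp (l / 2) * Complex.exp (-(l / 2)) = 1 := by
    rw [← Complex.exp_add, add_neg_cancel, Complex.exp_zero]
  have e2 : Complex.exp (l / 2) ^ 2 = Complex.exp l := by
    rw [← Complex.exp_nat_mul]
    congr 1
    push_cast
    ring
  have e3 : Complex.exp (-(l / 2)) ^ 2 = Complex.exp (-l) := by
    rw [← Complex.exp_nat_mul]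
    congr 1
    push_cast
    ring
  have htr : (B : Matrix (Fin 2) (Fin 2) ℂ).trace = B 0 0 + B 1 1 := by
    rw [Matrix.trace_fin_two]
  have h2 : (B 0 0 + B 1 1) ^ 2 = (Complex.exp (l / 2) + Complex.exp (-(l / 2))) ^ 2 := by
    rw [h1, ← e2, ← e3]
    linear_combination (-2 : ℂ) * e1
  have key : ∀ m : ℂ, ‖m‖ = Real.exp (l.re / 2) →
      m ^ 2 - (B : Matrix (Fin 2) (Fin 2) ℂ).trace * m + 1 = 0 →
      Pool.Agent.Helper35.PM.tl B = l.re := by
    intro m hm hr
    rw [hHS2.2.1 B m hr, hm, Real.log_exp, abs_of_pos (by linarith)]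
    ring
  have hn : ‖Complex.exp (l / 2)‖ = Real.exp (l.re / 2) := by
    rw [Complex.norm_exp]
    congr 1
    simp
  rcases sq_eq_sq_iff_eq_or_eq_neg.mp h2 with h | h
  · apply key (Complex.exp (l / 2)) hn
    rw [htr, h]
    linear_combination (-1 : ℂ) * e1
  · apply key (-Complex.exp (l / 2)) (by rw [norm_neg, hn])
    rw [htr, h]
    linear_combination (-1 : ℂ) * e1

/-- a function with vanishing real part has derivative zero -/
private theorem fvg_der (D : ℂ → ℂ) (d : ℂ) (hD : HasDerivAt D d 0)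
    (h0 : ∀ᶠ s in 𝓝 (0 : ℂ), (D s).re = 0) : d = 0 := by
  have h1 : HasFDerivAt (fun s => (D s).re)
      (Complex.reCLM.comp ((ContinuousLinearMap.smulRight (1 : ℂ →L[ℂ] ℂ) d).restrictScalars ℝ))
      (0 : ℂ) :=
    Complex.reCLM.hasFDerivAt.comp (0 : ℂ) (hD.hasFDerivAt.restrictScalars ℝ)
  have h2 : HasFDerivAt (fun s => (D s).re) (0 : ℂ →L[ℝ] ℝ) (0 : ℂ) :=
    (hasFDerivAt_const (0 : ℝ) (0 : ℂ)).congr_of_eventuallyEq h0
  have h3 := h1.unique h2
  have h4 := congrArg (fun L : ℂ →L[ℝ] ℝ => L 1) h3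
  have h5 := congrArg (fun L : ℂ →L[ℝ] ℝ => L Complex.I) h3
  simp at h4 h5
  apply Complex.ext
  · simpa using h4
  · simpa using h5

private theorem fvg_muT (a b : ℂ) (μ : ℂ → ℂ) (s : ℂ) :
    muT a b (fun z => s * μ z) = fun y => s * muT a b μ y := by
  funext η
  unfold muT
  ring

theorem hFVG (hHS2 : Pool.Agent.Helper35.PM.St_HS2) (hHL : Pool.Agent.Helper35.PM.St_HL) :
    Pool.Agent.Helper88.QT.StFVG := by
  intro Γ _ f r μ γ a b l hf hpos hB hI hW hMlt hl
  have hM : Mult (r γ) a b l := hMlt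
  have hab : a ≠ b := hM.1
  obtain ⟨G, hG, hGre⟩ := hHL (fun z => f z γ) hf hpos
  have hinv : InvL l (muT a b μ) := tor_inv hI hM
  have hν : Bel 1 (muT a b μ) := by
    refine ⟨?_, fun η => ?_⟩
    · have hμm := hB.meas
      unfold muT
      have m1 : Measurable (fun η : ℂ => (b * η - a) / (η - 1)) := by fun_prop
      have m2 : Measurable (fun η : ℂ => conj (η - 1)) :=
        Complex.continuous_conj.measurable.comp (by fun_prop)
      exact (hμm.comp m1).mul (measurable_const.mul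
        (((measurable_id.sub_const 1).pow_const 2).div (m2.pow_const 2)))
    · unfold muT
      rw [norm_mul, norm_mul, norm_div, norm_div, norm_pow, norm_pow, RCLike.norm_conj,
        RCLike.norm_conj]
      have h1 : ‖a - b‖ ≠ 0 := norm_ne_zero_iff.2 (sub_ne_zero.2 hab)
      rw [div_self h1, one_mul]
      have h2 : ‖η - 1‖ ^ 2 / ‖η - 1‖ ^ 2 ≤ 1 := div_self_le_one _
      have h3 := hB.le ((b * η - a) / (η - 1))
      calc _ ≤ 1 * 1 := mul_le_mul h3 h2 (by positivity) zero_le_one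
        _ = 1 := one_mul 1
  have hsB : ∀ s : ℂ, Bel ‖s‖ (fun z => s * μ z) := fun s =>
    ⟨measurable_const.mul hB.meas, fun z => by
      rw [norm_mul]
      have := hB.le z
      exact mul_le_of_le_one_right (norm_nonneg _) this⟩
  have hsν : ∀ s : ℂ, Bel ‖s‖ (fun z => s * muT a b μ z) := fun s =>
    ⟨measurable_const.mul hν.meas, fun z => by
      rw [norm_mul]
      have := hν.le z
      exact mul_le_of_le_one_right (norm_nonneg _) this⟩
  set q : ℂ → ℂ := fun s => nq (fun y => s * muT a b μ y) (Complex.exp l) with hq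
  -- the translation length
  have hlen : ∀ s : ℂ, ‖s‖ < 1 →
      Pool.Agent.Helper35.PM.tl (f s γ) = Real.log ‖q s‖ ∧ q s ≠ 0 := by
    intro s hs
    obtain ⟨C', hC⟩ := hW s hs
    have hIs : InvB (r γ) (fun z => s * μ z) := by
      filter_upwards [hI] with z hz
      linear_combination s * hz
    obtain ⟨l', hM', hl', -⟩ := Pool.Agent.Helper68.QCA.TOR ‖s‖ (norm_nonneg s) hs
      (fun z => s * μ z) (hsB s) (r γ) (C' * f s γ * C'⁻¹) a b l hIs hC hM hl
    have ht : Pool.Agent.Helper35.PM.tl (f s γ) = l'.re := by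
      rw [← hHS2.2.2.2.1 (f s γ) C']
      exact fvg_tl hHS2 _ _ _ _ hM' hl'
    -- the multiplier
    obtain ⟨-, hE⟩ := Pool.Agent.Helper68.QCA.EQM ‖s‖ hs _ (hsν s) l hl (by
      filter_upwards [hinv] with z hz
      linear_combination s * hz)
    obtain ⟨-, hS⟩ := Pool.Agent.Helper68.QCA.SPH ‖s‖ hs (fun z => s * μ z) (hsB s) a b hab
    rw [fvg_muT] at hS
    have hnq0 : nq (fun y => s * muT a b μ y) 0 = 0 :=
      (Pool.Agent.Helper68.QCA.EX ‖s‖ hs _ (hsν s)).zero
    obtain ⟨-, ha0, ha, hb0, hb, hm⟩ := hM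
    obtain ⟨-, -, -, -, -, hm'⟩ := hM'
    obtain ⟨ξ, hξ⟩ : ∃ ξ : ℂ, ξ ∉ ({a, b, -(r γ 1 1) / r γ 1 0} : Set ℂ) := by
      have hfin : ({a, b, -(r γ 1 1) / r γ 1 0} : Set ℂ).Finite :=
        (Set.finite_singleton _).insert _ |>.insert _
      exact hfin.exists_notMem
    simp only [mem_insert_iff, mem_singleton_iff, not_or] at hξ
    obtain ⟨x1, x2, x3⟩ := hξ
    have hden : Pool.Agent.Helper68.QC.den (r γ) ξ ≠ 0 := by
      unfold Pool.Agent.Helper68.QC.den
      by_cases hr : r γ 1 0 = 0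
      · rw [hr, zero_mul, zero_add]
        intro h
        apply ha0
        unfold Pool.Agent.Helper68.QC.den
        rw [hr, h]; ring
      · intro h
        apply x3
        rw [eq_div_iff hr]
        linear_combination h
    have hmb : Pool.Agent.Helper68.QC.mob (r γ) ξ ≠ b := by
      have h1 := mob_sub (r γ) hden hb0
      rw [hb] at h1
      rw [← sub_ne_zero, h1]
      exact div_ne_zero (sub_ne_zero.2 x2) (mul_ne_zero hden hb0)
    have e0 : crd a b ξ ≠ 0 := div_ne_zero (sub_ne_zero.2 x1) (sub_ne_zero.2 x2)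
    have e1 := hS (Pool.Agent.Helper68.QC.mob (r γ) ξ) hmb
    have e2 := hS ξ x2
    have hwb : nq (fun z => s * μ z) ξ ≠ nq (fun z => s * μ z) b := fun h =>
      x2 ((nq (fun z => s * μ z)).injective h)
    have hdB : Pool.Agent.Helper68.QC.den (C' * f s γ * C'⁻¹) (nq (fun z => s * μ z) ξ) ≠ 0 :=
      fun h => hden ((hC.1 ξ).2 h)
    have e3 := hm' (nq (fun z => s * μ z) ξ) hwb hdB
    rw [← hC.2.1 ξ hden] at e3
    have e4 : nq (fun y => s * muT a b μ y) (crd a b (Pool.Agent.Helper68.QC.mob (r γ) ξ)) =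
        Complex.exp l' * nq (fun y => s * muT a b μ y) (crd a b ξ) := by
      rw [e1, e2]
      exact e3
    rw [hm ξ x2 hden, hE] at e4
    have e5 : nq (fun y => s * muT a b μ y) (crd a b ξ) ≠ 0 := by
      rw [← hnq0]
      exact fun h => e0 ((nq (fun y => s * muT a b μ y)).injective h)
    have e6 : q s = Complex.exp l' := mul_right_cancel₀ e5 e4
    refine ⟨?_, ?_⟩
    · rw [ht, e6, Complex.norm_exp, Real.log_exp]
    · rw [e6]
      exact Complex.exp_ne_zero _
  -- the value at the origin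
  have hq0 : q 0 = Complex.exp l := by
    obtain ⟨C, hC⟩ := Pool.Agent.Helper68.QCA.NID ‖Complex.exp l‖
    have h1 := hC 0 le_rfl (by norm_num) (fun y => 0 * muT a b μ y)
      (by simpa using hsν 0) (Complex.exp l) le_rfl
    rw [mul_zero] at h1
    exact sub_eq_zero.1 (norm_le_zero_iff.1 h1)
  have hqd : HasDerivAt q (Complex.exp l * ((Real.pi : ℂ)⁻¹ *
      ∫ ξ in ann l, muT a b μ ξ / ξ ^ 2)) 0 :=
    Pool.Agent.Helper68.QCA.FVM (muT a b μ) hν l hl hinv
  rw [fvg_int hab] at hqd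
  set κ : ℂ := (Real.pi : ℂ)⁻¹ * ∫ ξ in Pool.Agent.Helper85.QT.Fm a b l,
    μ ξ * Pool.Agent.Helper85.QT.th a b ξ with hκ
  have hQd : HasDerivAt (fun s => q s * Complex.exp (-l)) κ 0 := by
    refine (hqd.mul_const (Complex.exp (-l))).congr_deriv ?_
    rw [mul_right_comm, ← Complex.exp_add, add_neg_cancel, Complex.exp_zero, one_mul]
  have hQ0 : q 0 * Complex.exp (-l) = 1 := by
    rw [hq0, ← Complex.exp_add, add_neg_cancel, Complex.exp_zero]
  have hLd : HasDerivAt (fun s => Complex.log (q s * Complex.exp (-l))) κ 0 := by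
    have := hQd.clog (by rw [hQ0]; exact Complex.one_mem_slitPlane)
    rwa [hQ0, div_one] at this
  have hG0 : HasDerivAt G (deriv G 0) 0 :=
    (hG.differentiableAt (Metric.isOpen_ball.mem_nhds (by simp))).hasDerivAt
  have hz := fvg_der (fun s => G s - Complex.log (q s * Complex.exp (-l)) - l)
    (deriv G 0 - κ) ((hG0.sub hLd).sub_const l) (by
      have hn : Metric.ball (0 : ℂ) 1 ∈ 𝓝 (0 : ℂ) := Metric.isOpen_ball.mem_nhds (by simp)
      filter_upwards [hn] with s hs
      have hs' : ‖s‖ < 1 := by simpa using hs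
      obtain ⟨h1, h2⟩ := hlen s hs'
      have h3 : (G s).re = Pool.Agent.Helper35.PM.tl (f s γ) := hGre s hs
      rw [Complex.sub_re, Complex.sub_re, h3, h1, Complex.log_re, norm_mul,
        Real.log_mul (norm_ne_zero_iff.2 h2) (norm_ne_zero_iff.2 (Complex.exp_ne_zero _)),
        Complex.norm_exp, Real.log_exp, Complex.neg_re]
      ring)
  exact ⟨G, hG, hGre, sub_eq_zero.1 hz⟩

end Pool.Agent.Helper94.QT
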